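import Pool.Agent.Lib_helper31.GC34.Defs2

/-!
# MP_859019_mp, `α ∈ [3,4]`, all states: elementary facts on strict pairs
-/

open scoped BigOperators ComplexOrder Kronecker MatrixOrder
open MeasureTheory Set Matrix

namespace Pool.Agent.GC34
open Pool.Agent.RC

variable {ι κ : Type} [Fintype ι] [DecidableEq ι] [Fintype κ] [DecidableEq κ]

theorem posDef_smul {A : Matrix ι ι ℂ} (h : A.PosDef) {c : ℝ} (hc : 0 < c) : (c • A).PosDef := by
  have : c • A = (c : ℂ) • A := by
    ext i j; simp [Matrix.smul_apply]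
  rw [this]
  exact h.smul (by exact_mod_cast hc)

theorem posSemidef_smul {A : Matrix ι ι ℂ} (h : A.PosSemidef) {c : ℝ} (hc : 0 ≤ c) :
    (c • A).PosSemidef := by
  have : c • A = (c : ℂ) • A := by
    ext i j; simp [Matrix.smul_apply]
  rw [this]
  exact h.smul (by exact_mod_cast hc)

theorem Strict.pos {A D : Matrix ι ι ℂ} (h : Strict A D) : A.PosDef := by
  have e : A = (1 / 2 : ℝ) • ((A + D) + (A - D)) := by
    rw [add_add_sub_cancel, ← two_smul ℝ A, smul_smul]; norm_num
  rw [e]
  exact posDef_smul (h.add.add h.sub) (by norm_num)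

theorem Strict.neg {A D : Matrix ι ι ℂ} (h : Strict A D) : Strict A (-D) :=
  ⟨by rw [← sub_eq_add_neg]; exact h.sub, by rw [sub_neg_eq_add]; exact h.add⟩

theorem Strict.smul {A D : Matrix ι ι ℂ} (h : Strict A D) {c : ℝ} (hc : |c| ≤ 1) :
    Strict A (c • D) := by
  have hc' := abs_le.1 hc
  have hs := h.sub
  have ha := h.add
  have key : ∀ (c : ℝ), -1 ≤ c → c ≤ 1 → (A + c • D).PosDef := by
    intro c h1 h2
    have e : A + c • D = ((1 + c) / 2 : ℝ) • (A + D) + ((1 - c) / 2 : ℝ) • (A - D) := by
      ext i j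
      simp only [Matrix.add_apply, Matrix.sub_apply, Matrix.smul_apply, Complex.real_smul]
      push_cast
      ring
    rw [e]
    rcases eq_or_lt_of_le h1 with h' | h1'
    · rw [← h']
      have : ((1 + -1) / 2 : ℝ) • (A + D) + ((1 - -1) / 2 : ℝ) • (A - D) = A - D := by
        norm_num
      rw [this]; exact hs
    · rcases eq_or_lt_of_le h2 with h' | h2'
      · rw [h']
        have : ((1 + 1) / 2 : ℝ) • (A + D) + ((1 - 1) / 2 : ℝ) • (A - D) = A + D := by
          norm_num
        rw [this]; exact ha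
      · exact (posDef_smul h.add (by linarith)).add (posDef_smul h.sub (by linarith))
  refine ⟨key c hc'.1 hc'.2, ?_⟩
  have := key (-c) (by linarith [hc'.2]) (by linarith [hc'.1])
  rwa [neg_smul, ← sub_eq_add_neg] at this

end Pool.Agent.GC34
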