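import Pool.Agent.Lib_helper31.GC34.Low
import Pool.Agent.Lib_helper92.GC34.Rid
import Pool.Agent.Lib_helper92.GC34.M1

/-!
# MP_859019_mp, `α ∈ [3,4]`, all states: the functional of `Fz` in a frame
-/

open scoped BigOperators ComplexOrder Kronecker MatrixOrder
open MeasureTheory Set Matrix

namespace Pool.Agent.GC34
open Pool.Agent.RC
open Pool.Agent.Lib_helper92.GC34 (rid sub0 sub1 sub2 ms_bdd)

variable {ι κ : Type} [Fintype ι] [DecidableEq ι] [Fintype κ] [DecidableEq κ]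

theorem Strict.smul_of {A B : Matrix ι ι ℂ} {r : ℝ} (hr : 1 < r) (h : Strict A (r • B)) :
    Strict A B := by
  have e : B = (1 / r : ℝ) • (r • B) := by
    rw [smul_smul, one_div, inv_mul_cancel₀ (by positivity), one_smul]
  rw [e]
  apply h.smul
  rw [abs_of_nonneg (by positivity), div_le_one (by positivity)]
  exact hr.le

/-- the labels stay inside the disc -/
theorem label_lt {A B : Matrix ι ι ℂ} {r lam σ : ℝ} (hr : 1 < r)
    (hV : Strict A (r • B)) (hl : |lam| * r < 1) (hσ : 0 < σ) {S : Matrix ι ι ℂ} {η : ι → ℝ}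
    (hS : Cg A B lam σ S η) (i : ι) : |η i| * r < 1 := by
  have hr0 : 0 < r := by linarith
  have hl' : |lam * r| < 1 := by rwa [abs_mul, abs_of_pos hr0]
  have hl2 := abs_lt.1 hl'
  have key : ∀ e : ℝ, (e = 1 ∨ e = -1) → 0 < 1 + (e * r) * η i := by
    intro e he
    have h1 := frame_comb hS.hA hS.hB 1 (e * r)
    have h2 : (1 : ℝ) • (A + σ • (1 : Matrix ι ι ℂ)) + (e * r) • (B + (lam * σ) • (1 : Matrix ι ι ℂ))
        = (A + e • (r • B)) + (σ * (1 + e * (lam * r))) • (1 : Matrix ι ι ℂ) := by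
      rw [one_smul, smul_add, smul_smul, smul_smul]
      have : σ * (1 + e * (lam * r)) = σ + e * r * (lam * σ) := by ring
      rw [this, add_smul]
      abel
    have h3 : (A + e • (r • B)).PosDef := by
      rcases he with rfl | rfl
      · rw [one_smul]; exact hV.add
      · rw [neg_one_smul, ← sub_eq_add_neg]; exact hV.sub
    have h4 : 0 < σ * (1 + e * (lam * r)) := by
      apply mul_pos hσ
      rcases he with rfl | rfl <;> linarith [hl2.1, hl2.2]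
    have h5 : (S * dg (fun i => 1 + (e * r) * η i) * Sᴴ).PosDef := by
      rw [← h1, h2]
      exact h3.add (smul_one_posDef h4)
    exact labels_pos hS.unit h5 i
  have a1 := key 1 (Or.inl rfl)
  have a2 := key (-1) (Or.inr rfl)
  have : |η i * r| < 1 := by
    rw [abs_lt]; constructor <;> linarith
  rwa [abs_mul, abs_of_pos hr0] at this

theorem one_add_ne {a r : ℝ} (h : |a| * r < 1) {z : ℂ} (hz : ‖z‖ = r) : 1 + (a : ℂ) * z ≠ 0 := by
  intro h0
  have h1 : (a : ℂ) * z = -1 := by linear_combination h0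
  have h2 : ‖(a : ℂ) * z‖ = 1 := by rw [h1]; simp
  rw [norm_mul, Complex.norm_real, Real.norm_eq_abs, hz] at h2
  linarith

theorem one_add_slit {a r : ℝ} (h : |a| * r < 1) {z : ℂ} (hz : ‖z‖ = r) :
    1 + (a : ℂ) * z ∈ Complex.slitPlane := by
  left
  have h2 : ‖(a : ℂ) * z‖ = |a| * r := by
    rw [norm_mul, Complex.norm_real, Real.norm_eq_abs, hz]
  have h3 := Complex.abs_re_le_norm ((a : ℂ) * z)
  rw [h2] at h3
  have h4 := (abs_le.1 h3).1
  rw [Complex.add_re, Complex.one_re]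
  linarith

/-- the resolvent form in the frame -/
theorem res_form {A B : Matrix ι ι ℂ} {lam σ : ℝ} {S : Matrix ι ι ℂ} {η : ι → ℝ}
    (hS : Cg A B lam σ S η) (v : ι → ℂ) {z : ℂ} (hz : ∀ i, 1 + (η i : ℂ) * z ≠ 0) :
    star v ⬝ᵥ (((A + σ • (1 : Matrix ι ι ℂ)) + z • (B + (lam * σ) • (1 : Matrix ι ι ℂ)))⁻¹ *ᵥ v)
      = ∑ i, ((‖(S⁻¹ *ᵥ v) i‖ ^ 2 : ℝ) : ℂ) * (1 + (η i : ℂ) * z)⁻¹ := by
  have hdet : IsUnit S.det := (Matrix.isUnit_iff_isUnit_det S).1 hS.unit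
  have h3 : Sᴴ * (S⁻¹)ᴴ = 1 := by
    rw [← Matrix.conjTranspose_mul, Matrix.nonsing_inv_mul _ hdet, Matrix.conjTranspose_one]
  have e1 : (A + σ • (1 : Matrix ι ι ℂ)) + z • (B + (lam * σ) • (1 : Matrix ι ι ℂ)) =
      S * diagonal (fun i => 1 + (η i : ℂ) * z) * Sᴴ := by
    rw [hS.hA, hS.hB]
    have : diagonal (fun i => 1 + (η i : ℂ) * z) = (1 : Matrix ι ι ℂ) + z • dg η := by
      ext i j
      by_cases h : i = j
      · subst h; simp [dg, mul_comm]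
      · simp [dg, h]
    rw [this, Matrix.mul_add, Matrix.add_mul, Matrix.mul_one, Matrix.mul_smul, Matrix.smul_mul]
  have e2 : (S * diagonal (fun i => 1 + (η i : ℂ) * z) * Sᴴ)⁻¹ =
      (S⁻¹)ᴴ * diagonal (fun i => (1 + (η i : ℂ) * z)⁻¹) * S⁻¹ := by
    apply Matrix.inv_eq_right_inv
    have h4 : diagonal (fun i => 1 + (η i : ℂ) * z) * diagonal (fun i => (1 + (η i : ℂ) * z)⁻¹)
        = (1 : Matrix ι ι ℂ) := by
      rw [Matrix.diagonal_mul_diagonal, ← Matrix.diagonal_one]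
      congr 1
      ext i
      exact mul_inv_cancel₀ (hz i)
    calc S * diagonal (fun i => 1 + (η i : ℂ) * z) * Sᴴ *
          ((S⁻¹)ᴴ * diagonal (fun i => (1 + (η i : ℂ) * z)⁻¹) * S⁻¹)
        = S * (diagonal (fun i => 1 + (η i : ℂ) * z) * (Sᴴ * (S⁻¹)ᴴ) *
            diagonal (fun i => (1 + (η i : ℂ) * z)⁻¹)) * S⁻¹ := by
          simp only [Matrix.mul_assoc]
      _ = 1 := by
          rw [h3, Matrix.mul_one, h4, Matrix.mul_one, Matrix.mul_nonsing_inv _ hdet]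
  rw [e1, e2, ← Matrix.mulVec_mulVec, ← Matrix.mulVec_mulVec]
  have e3 : star v ⬝ᵥ ((S⁻¹)ᴴ *ᵥ (diagonal (fun i => (1 + (η i : ℂ) * z)⁻¹) *ᵥ (S⁻¹ *ᵥ v)))
      = star (S⁻¹ *ᵥ v) ⬝ᵥ (diagonal (fun i => (1 + (η i : ℂ) * z)⁻¹) *ᵥ (S⁻¹ *ᵥ v)) := by
    rw [Matrix.star_mulVec, Matrix.dotProduct_mulVec]
  rw [e3]
  simp only [dotProduct, Matrix.mulVec_diagonal, Pi.star_apply]
  apply Finset.sum_congr rfl
  intro i _
  have : ((‖(S⁻¹ *ᵥ v) i‖ ^ 2 : ℝ) : ℂ) = star ((S⁻¹ *ᵥ v) i) * (S⁻¹ *ᵥ v) i := by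
    rw [Complex.star_def, ← Complex.normSq_eq_conj_mul_self, Complex.normSq_eq_norm_sq]
  rw [this]
  ring

theorem real_form {X : Matrix ι ι ℂ} (hX : X.IsHermitian) (v : ι → ℂ) :
    star v ⬝ᵥ (X *ᵥ v) = (qf X v : ℂ) := by
  unfold qf
  have h := hX.im_star_dotProduct_mulVec_self v
  apply Complex.ext
  · simp
  · simpa using h

theorem cell_Fz {p : ℝ} (h3 : 3 < p) (h4 : p < 4) {A B : Matrix ι ι ℂ} {C D : Matrix κ κ ℂ}
    {r lam σ : ℝ} (hr : 1 < r) (hV : Strict A (r • B)) (hW : Strict C D) (hl : |lam| * r < 1)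
    (hσ : 0 < σ) {S : Matrix ι ι ℂ} {η : ι → ℝ} (hS : Cg A B lam σ S η) (v : ι → ℂ) :
    cf p A B lam v (ms p C D) r σ =
      (Lo p A B C D lam σ S η v + Lo p A B C (-D) lam σ S η v) / 2 := by
  have hr0 : 0 < r := by linarith
  obtain ⟨K, hK⟩ := ms_bdd (κ := κ) h3 h4 hW.isPair
  have hV1 : Strict A B := hV.smul_of hr
  have hη : ∀ i, |η i| * r < 1 := label_lt hr hV hl hσ hS
  -- the three kinds of functions and their continuity on the circle
  have cpow : ∀ q : ℂ, Continuous fun θ => (1 + (lam : ℂ) * cz r θ) ^ q := by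
    intro q
    rw [continuous_iff_continuousAt]
    intro θ
    have h1 : ContinuousAt (fun θ => 1 + (lam : ℂ) * cz r θ) θ :=
      (continuous_const.add (continuous_const.mul (continuous_cz r))).continuousAt
    exact h1.cpow continuousAt_const (one_add_slit hl (norm_cz hr0 θ))
  have cinv : ∀ i, Continuous fun θ => (1 + (lam : ℂ) * cz r θ) ^ ((p : ℂ) + 1) /
      (1 + (η i : ℂ) * cz r θ) := fun i =>
    (cpow _).div (continuous_const.add (continuous_const.mul (continuous_cz r)))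
      (fun θ => one_add_ne (hη i) (norm_cz hr0 θ))
  -- decomposition on the circle
  set g1 : ι → ℂ → ℂ := fun i z => ((‖(S⁻¹ *ᵥ v) i‖ ^ 2 : ℝ) : ℂ) *
    ((1 + (lam : ℂ) * z) ^ ((p : ℂ) + 1) / (1 + (η i : ℂ) * z)) with hg1
  set g0 : ℂ → ℂ := fun z => ((-(qf 1 v / σ) : ℝ) : ℂ) * (1 + (lam : ℂ) * z) ^ (p : ℂ) with hg0
  set g2 : ℂ → ℂ := fun z => ((qf A v / σ ^ 2 : ℝ) : ℂ) *
    (1 + (lam : ℂ) * z) ^ ((p : ℂ) - 1) with hg2
  set g3 : ℂ → ℂ := fun z => ((qf B v / σ ^ 2 : ℝ) : ℂ) *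
    ((1 + (lam : ℂ) * z) ^ ((p : ℂ) - 1) * z) with hg3
  have hdec : ∀ θ, Fz p A B lam v σ (cz r θ) =
      (fun z => (∑ i, g1 i z) + (g0 z + (g2 z + g3 z))) (cz r θ) := by
    intro θ
    have hz := norm_cz hr0 θ
    set z := cz r θ
    have e1 := res_form hS v (z := z) (fun i => one_add_ne (hη i) hz)
    have e2 : star v ⬝ᵥ v = (qf 1 v : ℂ) := by
      have := real_form (Matrix.isHermitian_one (n := ι) (α := ℂ)) v
      rwa [Matrix.one_mulVec] at this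
    have e3 : star v ⬝ᵥ ((A + z • B) *ᵥ v) = (qf A v : ℂ) + z * (qf B v : ℂ) := by
      rw [Matrix.add_mulVec, Matrix.smul_mulVec, dotProduct_add, dotProduct_smul,
        real_form hV1.pos.isHermitian, real_form hV1.herm, smul_eq_mul]
    unfold Fz
    rw [e1, e2, e3]
    simp only [hg1, hg0, hg2, hg3]
    rw [Finset.mul_sum]
    have e4 : ∀ i, (1 + (lam : ℂ) * z) ^ ((p : ℂ) + 1) *
        (((‖(S⁻¹ *ᵥ v) i‖ ^ 2 : ℝ) : ℂ) * (1 + (η i : ℂ) * z)⁻¹) =
        ((‖(S⁻¹ *ᵥ v) i‖ ^ 2 : ℝ) : ℂ) *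
          ((1 + (lam : ℂ) * z) ^ ((p : ℂ) + 1) / (1 + (η i : ℂ) * z)) := by
      intro i; ring
    rw [Finset.sum_congr rfl fun i _ => e4 i]
    push_cast
    ring
  have k1 : ∀ i, Continuous fun θ => g1 i (cz r θ) := fun i => continuous_const.mul (cinv i)
  have k0 : Continuous fun θ => g0 (cz r θ) := continuous_const.mul (cpow _)
  have k2 : Continuous fun θ => g2 (cz r θ) := continuous_const.mul (cpow _)
  have k3 : Continuous fun θ => g3 (cz r θ) :=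
    continuous_const.mul ((cpow _).mul (continuous_cz r))
  have c0 : cell (ms p C D) r g0 = ((-(qf 1 v / σ) : ℝ) : ℂ) *
      (((tf (fun x => x ^ p) (C + lam • D) + tf (fun x => x ^ p) (C - lam • D)) / 2 : ℝ) : ℂ) := by
    rw [hg0, cell_const_mul, sub0 h3 h4 hW hr hl]
  have c2 : cell (ms p C D) r g2 = ((qf A v / σ ^ 2 : ℝ) : ℂ) *
      ((((cfc (fun x : ℝ => x ^ (p - 1)) (C + lam • D) * C).trace.re +
        (cfc (fun x : ℝ => x ^ (p - 1)) (C - lam • D) * C).trace.re) / 2 : ℝ) : ℂ) := by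
    rw [hg2, cell_const_mul, sub1 h3 h4 hW hr hl]
  have c3 : cell (ms p C D) r g3 = ((qf B v / σ ^ 2 : ℝ) : ℂ) *
      ((((cfc (fun x : ℝ => x ^ (p - 1)) (C + lam • D) * D).trace.re -
        (cfc (fun x : ℝ => x ^ (p - 1)) (C - lam • D) * D).trace.re) / 2 : ℝ) : ℂ) := by
    rw [hg3, cell_const_mul, sub2 h3 h4 hW hr hl]
  have c1 : ∀ i, cell (ms p C D) r (g1 i) = ((‖(S⁻¹ *ᵥ v) i‖ ^ 2 : ℝ) : ℂ) *
      (((Rr p (C + lam • D) (C + η i • D) + Rr p (C - lam • D) (C - η i • D)) / 2 : ℝ) : ℂ) :=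
    fun i => by
      rw [hg1]
      simp only []
      rw [cell_const_mul, rid h3 h4 hW hr hl (hη i)]
  unfold cf
  have hc : cell (ms p C D) r (Fz p A B lam v σ) =
      cell (ms p C D) r (fun z => (∑ i, g1 i z) + (g0 z + (g2 z + g3 z))) := cell_congr hdec
  rw [hc, cell_add hr hK (continuous_finsetSum _ fun i _ => k1 i)
    (k0.add (k2.add k3)), cell_add hr hK k0 (k2.add k3), cell_add hr hK k2 k3,
    cell_sum hr hK _ (fun i _ => k1 i), c0, c2, c3, Finset.sum_congr rfl fun i _ => c1 i]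
  simp only [Complex.add_re, Complex.re_sum, ← Complex.ofReal_mul, Complex.ofReal_re]
  unfold Lo
  have e5 : ∀ x : ℝ, C + x • (-D) = C - x • D := fun x => by rw [smul_neg, sub_eq_add_neg]
  simp only [e5, Matrix.mul_neg, Matrix.trace_neg, Complex.neg_re]
  have e6 : ∑ i, ‖(S⁻¹ *ᵥ v) i‖ ^ 2 * ((Rr p (C + lam • D) (C + η i • D) +
      Rr p (C - lam • D) (C - η i • D)) / 2) =
      (∑ i, ‖(S⁻¹ *ᵥ v) i‖ ^ 2 * Rr p (C + lam • D) (C + η i • D) +
        ∑ i, ‖(S⁻¹ *ᵥ v) i‖ ^ 2 * Rr p (C - lam • D) (C - η i • D)) / 2 := by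
    rw [← Finset.sum_add_distrib, Finset.sum_div]
    apply Finset.sum_congr rfl
    intro i _
    ring
  rw [e6]
  ring

end Pool.Agent.GC34
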