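import Pool.Agent.Lib_helper31.GC34.Basic
import Pool.Agent.Lib_helper14.GC34.Cong
import Pool.Agent.Lib_helper19.G34.Trial

/-!
# MP_859019_mp, `α ∈ [3,4]`, all states: congruence frames and the extreme eigenvector
-/

open scoped BigOperators ComplexOrder Kronecker MatrixOrder
open MeasureTheory Set Matrix

namespace Pool.Agent.GC34
open Pool.Agent.RC

variable {ι κ : Type} [Fintype ι] [DecidableEq ι] [Fintype κ] [DecidableEq κ]

theorem Strict.herm {A D : Matrix ι ι ℂ} (h : Strict A D) : D.IsHermitian := by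
  have e : D = (A + D) - A := by abel
  rw [e]
  exact h.add.isHermitian.sub h.pos.isHermitian

theorem dg_eq (c : ι → ℝ) : dg c = diagonal (fun i => (c i : ℂ)) := rfl

theorem dg_add (c d : ι → ℝ) : dg c + dg d = dg (fun i => c i + d i) := by
  rw [dg, dg, dg, Matrix.diagonal_add]
  congr 1
  ext i
  push_cast
  rfl

theorem dg_smul (r : ℝ) (c : ι → ℝ) : r • dg c = dg (fun i => r * c i) := by
  ext i j
  by_cases h : i = j
  · subst h; simp [dg]
  · simp [dg, h]

theorem dg_one : (dg fun _ : ι => (1 : ℝ)) = 1 := by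
  rw [dg]; simp

/-- `(S Sᴴ, S diag(η) Sᴴ)`: linear combinations -/
theorem frame_comb {S A B : Matrix ι ι ℂ} {η : ι → ℝ} (hA : A = S * Sᴴ) (hB : B = S * dg η * Sᴴ)
    (a b : ℝ) : a • A + b • B = S * dg (fun i => a + b * η i) * Sᴴ := by
  have e : dg (fun i => a + b * η i) = a • (1 : Matrix ι ι ℂ) + b • dg η := by
    rw [← dg_one, dg_smul, dg_smul, dg_add]
    congr 1
    ext i
    ring
  rw [e, Matrix.mul_add, Matrix.add_mul, hA, hB]
  simp [Matrix.mul_assoc]

theorem labels_pos {S : Matrix ι ι ℂ} (hS : IsUnit S) {c : ι → ℝ}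
    (h : (S * dg c * Sᴴ).PosDef) (j : ι) : 0 < c j := by
  have hS' : IsUnit S.det := (Matrix.isUnit_iff_isUnit_det S).1 hS
  have h3 : Sᴴ * (S⁻¹)ᴴ = 1 := by
    rw [← Matrix.conjTranspose_mul, Matrix.nonsing_inv_mul _ hS', Matrix.conjTranspose_one]
  have h1 : (S⁻¹ * (S * dg c * Sᴴ) * (S⁻¹)ᴴ) = dg c := by
    rw [Matrix.mul_assoc, Matrix.mul_assoc, Matrix.mul_assoc, h3, Matrix.mul_one,
      ← Matrix.mul_assoc, Matrix.nonsing_inv_mul _ hS', Matrix.one_mul]
  have h2 : (dg c : Matrix ι ι ℂ).PosDef := by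
    rw [← h1]
    refine h.mul_mul_conjTranspose_same ?_
    apply Matrix.vecMul_injective_of_isUnit
    rw [Matrix.isUnit_iff_isUnit_det]
    exact Matrix.isUnit_nonsing_inv_det _ hS'
  have h4 := (Matrix.posDef_diagonal_iff.1 h2) j
  exact_mod_cast h4

theorem labels_nonneg {S : Matrix ι ι ℂ} (hS : IsUnit S) {c : ι → ℝ}
    (h : (S * dg c * Sᴴ).PosSemidef) (j : ι) : 0 ≤ c j :=
  G34.labels_nonneg ((Matrix.isUnit_iff_isUnit_det S).1 hS) h j

theorem frame_posDef {S : Matrix ι ι ℂ} (hS : IsUnit S) {c : ι → ℝ} (hc : ∀ i, 0 < c i) :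
    (S * dg c * Sᴴ).PosDef := by
  have h2 : (dg c : Matrix ι ι ℂ).PosDef := by
    rw [dg, Matrix.posDef_diagonal_iff]
    intro i
    exact_mod_cast hc i
  refine h2.mul_mul_conjTranspose_same ?_
  exact Matrix.vecMul_injective_of_isUnit hS

theorem smul_one_posDef {σ : ℝ} (hσ : 0 < σ) : (σ • (1 : Matrix ι ι ℂ)).PosDef :=
  posDef_smul Matrix.PosDef.one hσ

theorem cg_exists {A B : Matrix ι ι ℂ} {lam σ : ℝ} (hV : Strict A B) (h1 : -1 < lam)
    (_h1' : lam < 1) (hext : (lam • A - B).PosSemidef) (hσ : 0 < σ) :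
    ∃ (S : Matrix ι ι ℂ) (η : ι → ℝ), Cg A B lam σ S η := by
  have hA : (A + σ • (1 : Matrix ι ι ℂ)).PosDef := hV.pos.add (smul_one_posDef hσ)
  have hB : (B + (lam * σ) • (1 : Matrix ι ι ℂ)).IsHermitian :=
    hV.herm.add (by
      have : ((lam * σ) • (1 : Matrix ι ι ℂ)) = ((lam * σ : ℝ) : ℂ) • 1 := by
        ext i j; simp [Matrix.smul_apply]
      rw [this, Matrix.IsHermitian, Matrix.conjTranspose_smul]
      simp)
  obtain ⟨S, η, hS, eA, eB⟩ := G34.exists_congr hA hB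
  have hS' : IsUnit S := (Matrix.isUnit_iff_isUnit_det S).2 hS
  refine ⟨S, η, hS', eA, eB, ?_, ?_⟩
  · intro i
    have e := frame_comb eA eB 1 1
    have e2 : (1 : ℝ) • (A + σ • (1 : Matrix ι ι ℂ)) + (1 : ℝ) • (B + (lam * σ) • (1 : Matrix ι ι ℂ))
        = (A + B) + (σ * (1 + lam)) • (1 : Matrix ι ι ℂ) := by
      rw [one_smul, one_smul, mul_add, mul_one, add_smul, mul_comm σ lam]
      abel
    have h3 : (S * dg (fun i => 1 + 1 * η i) * Sᴴ).PosDef := by
      rw [← e, e2]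
      exact hV.add.add (smul_one_posDef (by nlinarith))
    have := labels_pos hS' h3 i
    linarith
  · intro i
    have e := frame_comb eA eB lam (-1)
    have e2 : lam • (A + σ • (1 : Matrix ι ι ℂ)) + (-1 : ℝ) • (B + (lam * σ) • (1 : Matrix ι ι ℂ))
        = lam • A - B := by
      rw [smul_add, smul_add, smul_smul, neg_one_smul, neg_one_smul]
      abel
    have h3 : (S * dg (fun i => lam + (-1) * η i) * Sᴴ).PosSemidef := by
      rw [← e, e2]
      exact hext
    have := labels_nonneg hS' h3 i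
    linarith

theorem extreme_exists {n : ℕ} {A B : Matrix (Fin (n + 1)) (Fin (n + 1)) ℂ} (h : Strict A B) :
    ∃ (U : Matrix (Fin (n + 1)) (Fin (n + 1)) ℂ) (lam : ℝ), Uᴴ * U = 1 ∧ U * Uᴴ = 1 ∧
      -1 < lam ∧ lam < 1 ∧ (lam • (Uᴴ * A * U) - Uᴴ * B * U).PosSemidef ∧
      (Uᴴ * B * U) *ᵥ e0 = lam • ((Uᴴ * A * U) *ᵥ e0) := by
  obtain ⟨U, lam, h1, h2, h3, h4, h5⟩ := GC34c.cong h.neg.sub h.neg.add
  have h3' := abs_lt.1 h3
  refine ⟨U, -lam, h1, h2, by linarith [h3'.2], by linarith [h3'.1], ?_, ?_⟩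
  · have e : (-lam) • (Uᴴ * A * U) - Uᴴ * B * U = Uᴴ * (-B) * U - lam • (Uᴴ * A * U) := by
      rw [Matrix.mul_neg, Matrix.neg_mul, neg_smul]
      abel
    rw [e]
    exact h5
  · rw [Matrix.mul_neg, Matrix.neg_mul, Matrix.neg_mulVec] at h4
    unfold e0
    rw [neg_smul, ← h4, neg_neg]

/-- a larger radius -/
theorem exists_radius {A B : Matrix ι ι ℂ} (hV : Strict A B) {lam : ℝ} (h1 : -1 < lam)
    (h1' : lam < 1) : ∃ R : ℝ, 1 < R ∧ Strict A (R • B) ∧ |lam| * R < 1 := by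
  obtain ⟨S, η, hS, eA, eB⟩ := G34.exists_congr hV.pos hV.herm
  have hS' : IsUnit S := (Matrix.isUnit_iff_isUnit_det S).2 hS
  have hη : ∀ i, |η i| < 1 := by
    intro i
    rw [abs_lt]
    constructor
    · have e := frame_comb eA eB 1 1
      have h3 : (S * dg (fun i => 1 + 1 * η i) * Sᴴ).PosDef := by
        rw [← e, one_smul, one_smul]; exact hV.add
      linarith [labels_pos hS' h3 i]
    · have e := frame_comb eA eB 1 (-1)
      have h3 : (S * dg (fun i => 1 + (-1) * η i) * Sᴴ).PosDef := by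
        rw [← e, one_smul, neg_one_smul, ← sub_eq_add_neg]; exact hV.sub
      linarith [labels_pos hS' h3 i]
  have hl : |lam| < 1 := abs_lt.2 ⟨h1, h1'⟩
  -- a common bound
  obtain ⟨c, hc0, hc1, hcl, hcη⟩ : ∃ c : ℝ, 0 < c ∧ c < 1 ∧ |lam| ≤ c ∧ ∀ i, |η i| ≤ c := by
    refine ⟨max (1 / 2) (max |lam| (Finset.univ.sup' ⟨none, Finset.mem_univ none⟩
      (fun o : Option ι => o.elim 0 (fun i => |η i|)))), ?_, ?_, ?_, ?_⟩
    · exact lt_max_of_lt_left (by norm_num)
    · apply max_lt (by norm_num)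
      apply max_lt hl
      rw [Finset.sup'_lt_iff]
      rintro (_ | i) _
      · simp
      · exact hη i
    · exact (le_max_left _ _).trans (le_max_right _ _)
    · intro i
      refine le_trans ?_ ((le_max_right _ _).trans (le_max_right _ _))
      exact Finset.le_sup' (fun o : Option ι => o.elim 0 (fun i => |η i|))
        (Finset.mem_univ (some i))
  obtain ⟨R, hR1, hR2⟩ : ∃ R : ℝ, 1 < R ∧ c * R < 1 := by
    refine ⟨(1 + 1 / c) / 2, ?_, ?_⟩
    · have : 1 < 1 / c := by rw [lt_div_iff₀ hc0]; linarith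
      linarith
    · have : c * ((1 + 1 / c) / 2) = (c + 1) / 2 := by field_simp
      rw [this]; linarith
  have hR0 : 0 < R := by linarith
  have hRη : ∀ i, |η i| * R < 1 := fun i =>
    lt_of_le_of_lt (mul_le_mul_of_nonneg_right (hcη i) hR0.le) hR2
  refine ⟨R, hR1, ⟨?_, ?_⟩, lt_of_le_of_lt (mul_le_mul_of_nonneg_right hcl hR0.le) hR2⟩
  · have e := frame_comb eA eB 1 R
    rw [one_smul] at e
    rw [e]
    apply frame_posDef hS'
    intro i
    have := (abs_lt.1 (by rw [abs_mul, abs_of_pos hR0]; exact hRη i : |η i * R| < 1)).1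
    linarith [mul_comm R (η i)]
  · have e := frame_comb eA eB 1 (-R)
    rw [one_smul, neg_smul, ← sub_eq_add_neg] at e
    rw [e]
    apply frame_posDef hS'
    intro i
    have := (abs_lt.1 (by rw [abs_mul, abs_of_pos hR0]; exact hRη i : |η i * R| < 1)).2
    linarith [mul_comm R (η i)]

end Pool.Agent.GC34
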