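import Pool.Agent.Lib_helper95.RC.Main24
import Pool.Agent.Lib_helper92.RC.Bridge

/-!
# MP_859019_mp, `α ∈ [3,4]`, all states: common definitions
-/

open scoped BigOperators ComplexOrder Kronecker MatrixOrder
open MeasureTheory Set Matrix

namespace Pool.Agent.GC34

open Pool.Agent.RC

variable {ι κ : Type} [Fintype ι] [DecidableEq ι] [Fintype κ] [DecidableEq κ]

/-- `(A, D)` with `A + D > 0` and `A - D > 0` -/
structure Strict (A D : Matrix ι ι ℂ) : Prop where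
  add : (A + D).PosDef
  sub : (A - D).PosDef

/-- trace function -/
noncomputable def tf (f : ℝ → ℝ) (X : Matrix ι ι ℂ) : ℝ := (cfc f X).trace.re

/-- positive part -/
noncomputable def pos (X : Matrix ι ι ℂ) : Matrix ι ι ℂ := cfc (fun x : ℝ => max x 0) X

/-- real part of `w* X w` -/
noncomputable def qf (X : Matrix ι ι ℂ) (w : ι → ℂ) : ℝ := (star w ⬝ᵥ (X *ᵥ w)).re

/-- `(p+1) ∫ Tr (F - s E)_+^p ds` -/
noncomputable def Rr (p : ℝ) (F E : Matrix ι ι ℂ) : ℝ :=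
  (p + 1) * ∫ s in Ioi (0 : ℝ), tf (fun x : ℝ => (max x 0) ^ p) (F - s • E)

/-- `∫ Tr (X - s H)_+^3 ds` -/
noncomputable def J3 (X H : Matrix ι ι ℂ) : ℝ :=
  ∫ s in Ioi (0 : ℝ), tf (fun x : ℝ => (max x 0) ^ 3) (X - s • H)

/-- `2 ∫ (C - s H)_+ ds`, entry by entry -/
noncomputable def Yy (C H : Matrix ι ι ℂ) : Matrix ι ι ℂ :=
  Matrix.of fun i j => 2 * ∫ s in Ioi (0 : ℝ), pos (C - s • H) i j

/-- the vector `v ⊗ e_k` -/
def wv (v : ι → ℂ) (k : κ) : ι × κ → ℂ := fun x => if x.2 = k then v x.1 else 0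

/-- `∑_k Ψ(g_k) <v ⊗ e_k | (A ⊗ C + B ⊗ D + σ g_k)⁻¹ | v ⊗ e_k>` -/
noncomputable def Qf (A B : Matrix ι ι ℂ) (C D : Matrix κ κ ℂ) (g : κ → ℝ) (v : ι → ℂ) (σ : ℝ)
    (Ψ : ℝ → ℝ) : ℝ :=
  ∑ k, Ψ (g k) *
    qf ((A ⊗ₖ C + B ⊗ₖ D + (σ * g k) • (1 : Matrix (ι × κ) (ι × κ) ℂ))⁻¹) (wv v k)

/-- hypotheses of one frame: `V = (A, B)`, `W = (diag g - lam D, D)` strict, `B ≤ lam A`,
`A + σ = S S*`, `B + lam σ = S diag(η) S*` -/
structure Frame (A B : Matrix ι ι ℂ) (D : Matrix κ κ ℂ) (g : κ → ℝ) (lam σ : ℝ)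
    (S : Matrix ι ι ℂ) (η : ι → ℝ) : Prop where
  V : Strict A B
  W : Strict (dg g - lam • D) D
  gpos : ∀ k, 0 < g k
  ext : (lam • A - B).PosSemidef
  lam_gt : -1 < lam
  lam_lt : lam < 1
  σpos : 0 < σ
  unit : IsUnit S
  hA : A + σ • (1 : Matrix ι ι ℂ) = S * Sᴴ
  hB : B + (lam * σ) • (1 : Matrix ι ι ℂ) = S * dg η * Sᴴ
  η_gt : ∀ i, -1 < η i
  η_le : ∀ i, η i ≤ lam

/-- scaling of the rows and columns in `Z` by `t` -/
def St (Z : ι → Bool) (t : ℝ) (X : Matrix ι ι ℂ) : Matrix ι ι ℂ :=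
  Matrix.of fun i j => (if Z i then (t : ℂ) else 1) * (if Z j then (t : ℂ) else 1) * X i j

/-- the constant in `x^q = cq ∫ s^q (1/(s+x) - 1/s + x/s^2) ds` -/
noncomputable def cq (q : ℝ) : ℝ :=
  (∫ s in Ioi (0 : ℝ), s ^ q * (1 / (s + 1) - 1 / s + 1 / s ^ 2))⁻¹

/-- the moment sequence of the symmetrised pair: `Tr C^p` at `0`, `Ts` at the other even
indices, `0` at the odd ones -/
noncomputable def ms (p : ℝ) (C D : Matrix κ κ ℂ) (k : ℕ) : ℝ :=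
  if k = 0 then tf (fun x => x ^ p) C else if Even k then Ts p C D (k / 2 - 1) else 0

/-- `½ (Tr (A + D)^p + Tr (A - D)^p)` -/
noncomputable def Hs (p : ℝ) (A D : Matrix ι ι ℂ) : ℝ :=
  (tf (fun x => x ^ p) (A + D) + tf (fun x => x ^ p) (A - D)) / 2

/-- the function `F(σ, z)` of the classical side -/
noncomputable def Fz (p : ℝ) (A B : Matrix ι ι ℂ) (lam : ℝ) (v : ι → ℂ) (σ : ℝ) (z : ℂ) : ℂ :=
  (1 + lam * z) ^ ((p : ℂ) + 1) *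
      (star v ⬝ᵥ (((A + σ • (1 : Matrix ι ι ℂ)) + z • (B + (lam * σ) • (1 : Matrix ι ι ℂ)))⁻¹ *ᵥ v))
    - (1 + lam * z) ^ (p : ℂ) * (star v ⬝ᵥ v) / σ
    + (1 + lam * z) ^ ((p : ℂ) - 1) * (star v ⬝ᵥ ((A + z • B) *ᵥ v)) / σ ^ 2

end Pool.Agent.GC34
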