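import Pool.Agent.Lib_helper31.GC34.Defs
import Pool.Agent.Lib_helper5.GC34.Circ

/-!
# MP_859019_mp, `α ∈ [3,4]`, all states: definitions for the induction
-/

open scoped BigOperators ComplexOrder Kronecker MatrixOrder
open MeasureTheory Set Matrix

namespace Pool.Agent.GC34

open Pool.Agent.RC

variable {ι κ : Type} [Fintype ι] [DecidableEq ι] [Fintype κ] [DecidableEq κ]

/-- `t` on `Z`, `1` off `Z` -/
noncomputable def SZ (Z : Finset ι) (t : ℝ) : Matrix ι ι ℂ :=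
  diagonal fun i => if i ∈ Z then (t : ℂ) else 1

/-- rows and columns in `Z` scaled by `t` -/
noncomputable def low (Z : Finset ι) (t : ℝ) (X : Matrix ι ι ℂ) : Matrix ι ι ℂ :=
  SZ Z t * X * SZ Z t

/-- the first basis vector -/
def e0 {n : ℕ} : Fin (n + 1) → ℂ := Pi.single 0 1

/-- the symmetrised `T_p` -/
noncomputable def TT (p : ℝ) (A B : Matrix ι ι ℂ) (C D : Matrix κ κ ℂ) : ℝ :=
  Hs p (A ⊗ₖ C) (B ⊗ₖ D) - ∑' k : ℕ, Ring.choose p k * ms p A B k * ms p C D k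

/-- the lower bound in one frame, for `W = (C, D)` -/
noncomputable def Lo (p : ℝ) (A B : Matrix ι ι ℂ) (C D : Matrix κ κ ℂ) (lam σ : ℝ)
    (S : Matrix ι ι ℂ) (η : ι → ℝ) (v : ι → ℂ) : ℝ :=
  ∑ i, ‖(S⁻¹ *ᵥ v) i‖ ^ 2 * Rr p (C + lam • D) (C + η i • D) -
    tf (fun x => x ^ p) (C + lam • D) * qf 1 v / σ +
    (qf A v * (cfc (fun x : ℝ => x ^ (p - 1)) (C + lam • D) * C).trace.re +
      qf B v * (cfc (fun x : ℝ => x ^ (p - 1)) (C + lam • D) * D).trace.re) / σ ^ 2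

/-- a congruence frame at `σ` -/
structure Cg (A B : Matrix ι ι ℂ) (lam σ : ℝ) (S : Matrix ι ι ℂ) (η : ι → ℝ) : Prop where
  unit : IsUnit S
  hA : A + σ • (1 : Matrix ι ι ℂ) = S * Sᴴ
  hB : B + (lam * σ) • (1 : Matrix ι ι ℂ) = S * dg η * Sᴴ
  η_gt : ∀ i, -1 < η i
  η_le : ∀ i, η i ≤ lam

/-- the integrand of the classical side after the functional -/
noncomputable def cf (p : ℝ) (A B : Matrix ι ι ℂ) (lam : ℝ) (v : ι → ℂ) (m : ℕ → ℝ) (r σ : ℝ) :
    ℝ := (cell m r (Fz p A B lam v σ)).re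

end Pool.Agent.GC34
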