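import Pool.Agent.Lib_helper31.GC34.Low
import Pool.Agent.Lib_helper44.G34.Ftc

/-!
# MP_859019_mp, `α ∈ [3,4]`, all states: the fundamental theorem of the lowering, rewrapped
-/

open scoped BigOperators ComplexOrder Kronecker MatrixOrder
open MeasureTheory Set Matrix

namespace Pool.Agent.GC34
open Pool.Agent.RC

variable {ι κ : Type} [Fintype ι] [DecidableEq ι] [Fintype κ] [DecidableEq κ]

theorem ftc {X : Matrix ι ι ℂ} (hX : X.PosSemidef) (Z : Finset ι) {p : ℝ} (hp : 1 < p) :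
    IntegrableOn (fun t : ℝ => 2 * p / t *
      ∑ i ∈ Z, (cfc (fun x : ℝ => x ^ p) (low Z t X) i i).re) (Ioo 0 1) ∧
    ∫ t in Ioo (0 : ℝ) 1, 2 * p / t * ∑ i ∈ Z, (cfc (fun x : ℝ => x ^ p) (low Z t X) i i).re =
      tf (fun x => x ^ p) X - tf (fun x => x ^ p) (low Z 0 X) := by
  obtain ⟨-, -, -, -, h1, h2⟩ := Pool.Agent.Lib_helper44.G34.ftc_Z hX Z hp
  constructor
  · have := (intervalIntegrable_iff_integrableOn_Ioo_of_le zero_le_one).1 h1
    exact this
  · rw [intervalIntegral.integral_of_le zero_le_one, integral_Ioc_eq_integral_Ioo] at h2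
    exact h2

end Pool.Agent.GC34
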