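import Pool.Agent.Lib_helper33.GC.W3
import Pool.Agent.Lib_helper94.GC34.PWmu

/-!
# MP_859019_mp, `α ∈ [3,4]`, all states: the quantum side, assembled
-/

open scoped BigOperators ComplexOrder Kronecker MatrixOrder
open MeasureTheory Set Matrix

namespace Pool.Agent.GC34
open Pool.Agent.RC

variable {ι κ : Type} [Fintype ι] [DecidableEq ι] [Fintype κ] [DecidableEq κ]

theorem pw {A B : Matrix ι ι ℂ} {D : Matrix κ κ ℂ} {g : κ → ℝ} {lam σ : ℝ}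
    {S : Matrix ι ι ℂ} {η : ι → ℝ} (h : Frame A B D g lam σ S η) (v : ι → ℂ) {p : ℝ}
    (hp : 3 < p) :
    ∑ i, ‖(S⁻¹ *ᵥ v) i‖ ^ 2 * Rr p (dg g) (dg g - (lam - η i) • D) ≤
    Qf A B (dg g - lam • D) D g v σ (fun c => c ^ (p + 1)) :=
  Pool.Agent.Lib_helper33.GC34.pw_of h v hp
    (fun _ hm => Pool.Agent.Lib_helper94.GC34.pw_mu h v hm.le)

theorem kq_ge {p : ℝ} (h3 : 3 < p) (h4 : p < 4) {A B : Matrix ι ι ℂ} {C D : Matrix κ κ ℂ}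
    {lam : ℝ} (hV : Strict A B) (hW : Strict C D) (h1 : -1 < lam) (h1' : lam < 1)
    (hext : (lam • A - B).PosSemidef) (u : ι → ℂ) (hu : B *ᵥ u = lam • (A *ᵥ u)) :
    ∃ Q : ℝ → ℝ, IntegrableOn (fun σ => σ ^ (p - 2) * Q σ) (Ioi 0) ∧
      cq (p - 2) * ∫ σ in Ioi (0 : ℝ), σ ^ (p - 2) * Q σ =
        ∑ k : κ, qf (cfc (fun x : ℝ => x ^ p) (A ⊗ₖ C + B ⊗ₖ D)) (wv u k) ∧
      ∀ σ : ℝ, 0 < σ → ∀ (S : Matrix ι ι ℂ) (η : ι → ℝ), Cg A B lam σ S η →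
        Lo p A B C D lam σ S η (A *ᵥ u) ≤ Q σ :=
  Pool.Agent.Lib_helper33.GC34.kq_ge_of h3 h4 (fun _ _ _ _ _ hF v => pw hF v h3) hV hW h1 h1'
    hext u hu

end Pool.Agent.GC34
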