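import Pool.Agent.Lib_helper31.GC34.Cong

/-!
# MP_859019_mp, `α ∈ [3,4]`, all states: lowering of rows and columns
-/

open scoped BigOperators ComplexOrder Kronecker MatrixOrder
open MeasureTheory Set Matrix

namespace Pool.Agent.GC34
open Pool.Agent.RC

variable {ι κ : Type} [Fintype ι] [DecidableEq ι] [Fintype κ] [DecidableEq κ]

theorem SZ_herm (Z : Finset ι) (t : ℝ) : (SZ Z t)ᴴ = SZ Z t := by
  unfold SZ
  rw [Matrix.diagonal_conjTranspose]
  congr 1
  ext i
  by_cases h : i ∈ Z <;> simp [h]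

theorem low_apply (Z : Finset ι) (t : ℝ) (X : Matrix ι ι ℂ) (i j : ι) :
    low Z t X i j = (if i ∈ Z then (t : ℂ) else 1) * X i j * (if j ∈ Z then (t : ℂ) else 1) := by
  unfold low SZ
  rw [Matrix.mul_diagonal, Matrix.diagonal_mul]

theorem low_add (Z : Finset ι) (t : ℝ) (X Y : Matrix ι ι ℂ) :
    low Z t (X + Y) = low Z t X + low Z t Y := by
  unfold low; rw [Matrix.mul_add, Matrix.add_mul]

theorem low_sub (Z : Finset ι) (t : ℝ) (X Y : Matrix ι ι ℂ) :
    low Z t (X - Y) = low Z t X - low Z t Y := by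
  unfold low; rw [Matrix.mul_sub, Matrix.sub_mul]

theorem low_smul (Z : Finset ι) (t c : ℝ) (X : Matrix ι ι ℂ) :
    low Z t (c • X) = c • low Z t X := by
  unfold low; rw [Matrix.mul_smul, Matrix.smul_mul]

theorem low_psd (Z : Finset ι) (t : ℝ) {X : Matrix ι ι ℂ} (h : X.PosSemidef) :
    (low Z t X).PosSemidef := by
  have := h.conjTranspose_mul_mul_same (SZ Z t)
  rwa [SZ_herm] at this

theorem SZ_isUnit (Z : Finset ι) {t : ℝ} (ht : t ≠ 0) : IsUnit (SZ Z t) := by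
  rw [Matrix.isUnit_iff_isUnit_det]
  unfold SZ
  rw [Matrix.det_diagonal, isUnit_iff_ne_zero, Finset.prod_ne_zero_iff]
  intro i _
  by_cases h : i ∈ Z
  · simp [h, ht]
  · simp [h]

theorem low_pd (Z : Finset ι) {t : ℝ} (ht : t ≠ 0) {X : Matrix ι ι ℂ} (h : X.PosDef) :
    (low Z t X).PosDef := by
  have h2 := h.mul_mul_conjTranspose_same (B := SZ Z t)
    (Matrix.vecMul_injective_of_isUnit (SZ_isUnit Z ht))
  rwa [SZ_herm] at h2

theorem Strict.low {A B : Matrix ι ι ℂ} (h : Strict A B) (Z : Finset ι) {t : ℝ} (ht : t ≠ 0) :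
    Strict (low Z t A) (low Z t B) :=
  ⟨by rw [← low_add]; exact low_pd Z ht h.add, by rw [← low_sub]; exact low_pd Z ht h.sub⟩

theorem low_one (Z : Finset ι) (X : Matrix ι ι ℂ) : low Z 1 X = X := by
  ext i j
  rw [low_apply]
  simp

theorem SZ_e0 {n : ℕ} (t : ℝ) : SZ ({0} : Finset (Fin (n + 1))) t *ᵥ e0 = (t : ℂ) • e0 := by
  ext i
  unfold SZ e0
  rw [Matrix.mulVec_diagonal]
  by_cases h : i = 0
  · subst h; simp
  · simp [h]

/-- the extreme vector stays a generalised eigenvector -/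
theorem low_eig {n : ℕ} {A B : Matrix (Fin (n + 1)) (Fin (n + 1)) ℂ} {lam : ℝ}
    (hu : B *ᵥ e0 = lam • (A *ᵥ e0)) (t : ℝ) :
    low {0} t B *ᵥ e0 = lam • (low {0} t A *ᵥ e0) := by
  unfold low
  rw [← Matrix.mulVec_mulVec, ← Matrix.mulVec_mulVec, ← Matrix.mulVec_mulVec,
    ← Matrix.mulVec_mulVec, SZ_e0, Matrix.mulVec_smul, Matrix.mulVec_smul, hu,
    Matrix.mulVec_smul, Matrix.mulVec_smul, Matrix.mulVec_smul, smul_comm]

/-- lowering in the tensor product -/
theorem low_kron (Z : Finset ι) (t : ℝ) (A : Matrix ι ι ℂ) (C : Matrix κ κ ℂ) :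
    low (Z ×ˢ (Finset.univ : Finset κ)) t (A ⊗ₖ C) = low Z t A ⊗ₖ C := by
  ext ⟨i, k⟩ ⟨j, l⟩
  simp only [low_apply, Matrix.kroneckerMap_apply, Finset.mem_product, Finset.mem_univ, and_true]
  ring

theorem Strict.kron_pd {A B : Matrix ι ι ℂ} {C D : Matrix κ κ ℂ} (hV : Strict A B)
    (hW : Strict C D) : (A ⊗ₖ C + B ⊗ₖ D).PosDef := by
  have e : A ⊗ₖ C + B ⊗ₖ D =
      (1 / 2 : ℝ) • ((A + B) ⊗ₖ (C + D) + (A - B) ⊗ₖ (C - D)) := by
    ext ⟨i, k⟩ ⟨j, l⟩
    simp only [Matrix.add_apply, Matrix.sub_apply, Matrix.smul_apply, Matrix.kroneckerMap_apply,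
      Complex.real_smul]
    push_cast
    ring
  rw [e]
  exact posDef_smul ((hV.add.kronecker hW.add).add (hV.sub.kronecker hW.sub)) (by norm_num)

theorem sum_low_diag {n : ℕ} (X : Matrix (Fin (n + 1) × κ) (Fin (n + 1) × κ) ℂ) :
    ∑ i ∈ ({0} : Finset (Fin (n + 1))) ×ˢ (Finset.univ : Finset κ), (X i i).re =
      ∑ k : κ, qf X (wv e0 k) := by
  rw [Finset.sum_product, Finset.sum_singleton]
  apply Finset.sum_congr rfl
  intro k _
  have e : (wv e0 k : Fin (n + 1) × κ → ℂ) = Pi.single (0, k) 1 := by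
    ext ⟨i, l⟩
    unfold wv e0
    by_cases h1 : l = k
    · subst h1
      by_cases h2 : i = 0
      · subst h2; simp
      · have : ((i, l) : Fin (n + 1) × κ) ≠ (0, l) := fun h => h2 (Prod.ext_iff.1 h).1
        simp [h2, Pi.single_eq_of_ne this]
    · have : ((i, l) : Fin (n + 1) × κ) ≠ (0, k) := fun h => h1 (Prod.ext_iff.1 h).2
      simp [h1, Pi.single_eq_of_ne this]
  unfold qf
  rw [e, Matrix.mulVec_single_one]
  have : star (Pi.single (0, k) (1 : ℂ) : Fin (n + 1) × κ → ℂ) = Pi.single (0, k) 1 := by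
    ext x
    rw [Pi.star_apply]
    by_cases h : x = (0, k)
    · subst h; simp
    · simp [Pi.single_eq_of_ne h]
  rw [this, single_one_dotProduct]
  rfl

theorem Strict.isPair {A D : Matrix ι ι ℂ} (h : Strict A D) : IsPair A D :=
  ⟨h.pos, h.sub.posSemidef, h.add.posSemidef⟩

/-- principal submatrix -/
theorem Strict.submatrix {A B : Matrix ι ι ℂ} (h : Strict A B) {f : κ → ι}
    (hf : Function.Injective f) : Strict (A.submatrix f f) (B.submatrix f f) :=
  ⟨h.add.submatrix hf, h.sub.submatrix hf⟩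

end Pool.Agent.GC34
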