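import Pool.Agent.Lib_helper31.GC34.Low
import Pool.Agent.Lib_helper31.GC34.CellF
import Pool.Agent.Lib_helper31.GC34.FtcW
import Pool.Agent.Lib_helper31.GC34.KqGe
import Pool.Agent.Lib_helper57.GC34.Classical
import Pool.Agent.Lib_helper82.GC34.Succ
import Pool.Agent.Lib_helper82.GC34.Ind
import Pool.Agent.Lib_helper49.GC34.E5
import Pool.Agent.Lib_helper98.GC34.Final

/-!
# MP_859019_mp, `α ∈ [3,4]`, all states: the local inequality, one lowering step, the induction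
-/

open scoped BigOperators ComplexOrder Kronecker MatrixOrder
open MeasureTheory Set Matrix

namespace Pool.Agent.GC34
open Pool.Agent.RC
open Pool.Agent.Lib_helper33.GC34 (cq_pos)
open Pool.Agent.Lib_helper92.GC34 (ms_bdd)
open Pool.Agent.Lib_helper57.GC34 (classical)
open Pool.Agent.Lib_helper82.GC34 (tf_succ_kron tt_nonneg_of)
open Pool.Agent.Lib_helper49.GC34 (strict_of_tt)

variable {ι κ : Type} [Fintype ι] [DecidableEq ι] [Fintype κ] [DecidableEq κ]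

theorem kron_neg_right (B : Matrix ι ι ℂ) (D : Matrix κ κ ℂ) : B ⊗ₖ (-D) = -(B ⊗ₖ D) := by
  ext ⟨i, k⟩ ⟨j, l⟩
  simp [Matrix.kroneckerMap_apply]

theorem abs_lt_one_of {lam r : ℝ} (hr : 1 < r) (hl : |lam| * r < 1) : -1 < lam ∧ lam < 1 := by
  have h1 : |lam| < 1 := by
    by_contra h
    push Not at h
    nlinarith [abs_nonneg lam]
  exact abs_lt.1 h1

theorem local_ge {p : ℝ} (h3 : 3 < p) (h4 : p < 4) {A B : Matrix ι ι ℂ} {C D : Matrix κ κ ℂ}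
    {r lam : ℝ} (hr : 1 < r) (hV : Strict A (r • B)) (hW : Strict C D) (hl : |lam| * r < 1)
    (hext : (lam • A - B).PosSemidef) (u : ι → ℂ) (hu : B *ᵥ u = lam • (A *ᵥ u))
    (hint : IntegrableOn (fun σ : ℝ => σ ^ (p - 2) *
      cf p A B lam (A *ᵥ u) (ms p C D) r σ) (Ioi 0)) :
    cq (p - 2) * ∫ σ in Ioi (0 : ℝ), σ ^ (p - 2) * cf p A B lam (A *ᵥ u) (ms p C D) r σ ≤
      (∑ k : κ, qf (cfc (fun x : ℝ => x ^ p) (A ⊗ₖ C + B ⊗ₖ D)) (wv u k) +
        ∑ k : κ, qf (cfc (fun x : ℝ => x ^ p) (A ⊗ₖ C - B ⊗ₖ D)) (wv u k)) / 2 := by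
  obtain ⟨hl1, hl2⟩ := abs_lt_one_of hr hl
  have hV1 : Strict A B := hV.smul_of hr
  obtain ⟨Q1, hi1, he1, hb1⟩ := kq_ge h3 h4 hV1 hW hl1 hl2 hext u hu
  obtain ⟨Q2, hi2, he2, hb2⟩ := kq_ge h3 h4 hV1 hW.neg hl1 hl2 hext u hu
  have e1 : A ⊗ₖ C - B ⊗ₖ D = A ⊗ₖ C + B ⊗ₖ (-D) := by
    rw [kron_neg_right, sub_eq_add_neg]
  have hc : 0 < cq (p - 2) := cq_pos (by linarith) (by linarith)
  have hi : IntegrableOn (fun σ : ℝ => (σ ^ (p - 2) * Q1 σ + σ ^ (p - 2) * Q2 σ) / 2) (Ioi 0) :=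
    (hi1.add hi2).div_const 2
  have key : ∫ σ in Ioi (0 : ℝ), σ ^ (p - 2) * cf p A B lam (A *ᵥ u) (ms p C D) r σ ≤
      ∫ σ in Ioi (0 : ℝ), (σ ^ (p - 2) * Q1 σ + σ ^ (p - 2) * Q2 σ) / 2 := by
    apply setIntegral_mono_on hint hi measurableSet_Ioi
    intro σ hσ
    have hσ' : 0 < σ := hσ
    obtain ⟨S, η, hS⟩ := cg_exists hV1 hl1 hl2 hext hσ'
    rw [cell_Fz h3 h4 hr hV hW hl hσ' hS (A *ᵥ u)]
    have a1 := hb1 σ hσ' S η hS
    have a2 := hb2 σ hσ' S η hS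
    have hp : 0 ≤ σ ^ (p - 2) := Real.rpow_nonneg hσ'.le _
    have : σ ^ (p - 2) * ((Lo p A B C D lam σ S η (A *ᵥ u) +
        Lo p A B C (-D) lam σ S η (A *ᵥ u)) / 2) ≤
        σ ^ (p - 2) * ((Q1 σ + Q2 σ) / 2) :=
      mul_le_mul_of_nonneg_left (by linarith) hp
    calc _ ≤ _ := this
      _ = _ := by ring
  rw [integral_div, integral_add hi1 hi2] at key
  rw [e1, ← he1, ← he2]
  calc _ ≤ _ := mul_le_mul_of_nonneg_left key hc.le
    _ = _ := by ring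

theorem ms_even_zero {p : ℝ} {C D : Matrix κ κ ℂ} : ∀ k, ¬ Even k → ms p C D k = 0 := by
  intro k hk
  unfold ms
  have h0 : k ≠ 0 := by
    rintro rfl
    exact hk (by simp)
  rw [if_neg h0, if_neg hk]

theorem step {p : ℝ} (h3 : 3 < p) (h4 : p < 4) {n : ℕ}
    {A B : Matrix (Fin (n + 1)) (Fin (n + 1)) ℂ} {C D : Matrix κ κ ℂ} {lam : ℝ}
    (hV : Strict A B) (hW : Strict C D) (h1 : -1 < lam) (h1' : lam < 1)
    (hext : (lam • A - B).PosSemidef) (hu : B *ᵥ e0 = lam • (A *ᵥ e0)) :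
    TT p (A.submatrix Fin.succ Fin.succ) (B.submatrix Fin.succ Fin.succ) C D ≤ TT p A B C D := by
  obtain ⟨R, hR1, hR2, hR3⟩ := exists_radius hV h1 h1'
  obtain ⟨r, hr1, hrR⟩ : ∃ r : ℝ, 1 < r ∧ r < R := ⟨(1 + R) / 2, by linarith, by linarith⟩
  obtain ⟨K, hK⟩ := ms_bdd (κ := κ) h3 h4 hW.isPair
  obtain ⟨hi1, hi2, hsum⟩ := classical h3 h4 hr1 hrR hR2 hR3 hu hK ms_even_zero
  have hlr : |lam| * r < 1 := lt_of_le_of_lt
    (mul_le_mul_of_nonneg_left hrR.le (abs_nonneg _)) hR3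
  have hVr : Strict A (r • B) := by
    have e : r • B = (r / R) • (R • B) := by
      rw [smul_smul, div_mul_cancel₀ _ (by linarith : R ≠ 0)]
    rw [e]
    apply hR2.smul
    rw [abs_of_nonneg (by positivity), div_le_one (by linarith)]
    exact hrR.le
  set Z : Finset (Fin (n + 1) × κ) := ({0} : Finset (Fin (n + 1))) ×ˢ Finset.univ with hZ
  set X1 := A ⊗ₖ C + B ⊗ₖ D with hX1
  set X2 := A ⊗ₖ C - B ⊗ₖ D with hX2
  have e2 : X2 = A ⊗ₖ C + B ⊗ₖ (-D) := by rw [kron_neg_right, hX2, sub_eq_add_neg]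
  have hP1 : X1.PosDef := hV.kron_pd hW
  have hP2 : X2.PosDef := by rw [e2]; exact hV.kron_pd hW.neg
  have hp1 : 1 < p := by linarith
  have f0 : (fun x : ℝ => x ^ p) 0 = 0 := Real.zero_rpow (by linarith)
  obtain ⟨f1, g1⟩ := ftc hP1.posSemidef Z hp1
  obtain ⟨f2, g2⟩ := ftc hP2.posSemidef Z hp1
  have t1 := tf_succ_kron (n := n) (κ := κ) (f := fun x : ℝ => x ^ p) f0 hP1.isHermitian
  have t2 := tf_succ_kron (n := n) (κ := κ) (f := fun x : ℝ => x ^ p) f0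
    (e2 ▸ hP2.isHermitian : (A ⊗ₖ C + B ⊗ₖ (-D)).IsHermitian)
  rw [← hZ] at t1 t2
  rw [← hX1] at t1
  rw [← e2] at t2
  rw [t1] at g1
  rw [t2, kron_neg_right, ← sub_eq_add_neg] at g2
  -- the comparison for each t
  have key : ∀ t ∈ Ioo (0 : ℝ) 1, 2 * p / t * (cq (p - 2) * ∫ σ in Ioi (0 : ℝ), σ ^ (p - 2) *
      cf p (low {0} t A) (low {0} t B) lam (low {0} t A *ᵥ e0) (ms p C D) r σ) ≤
      (2 * p / t * ∑ i ∈ Z, (cfc (fun x : ℝ => x ^ p) (low Z t X1) i i).re +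
        2 * p / t * ∑ i ∈ Z, (cfc (fun x : ℝ => x ^ p) (low Z t X2) i i).re) / 2 := by
    intro t ht
    have ht0 : (0 : ℝ) < t := ht.1
    have hVt : Strict (low {0} t A) (r • low {0} t B) := by
      rw [← low_smul]
      exact hVr.low _ ht0.ne'
    have hext' : (lam • low {0} t A - low {0} t B).PosSemidef := by
      rw [← low_smul, ← low_sub]
      exact low_psd _ _ hext
    have h := local_ge h3 h4 hr1 hVt hW hlr hext' e0 (low_eig hu t) (hi1 t ht)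
    have c1 : low Z t X1 = low {0} t A ⊗ₖ C + low {0} t B ⊗ₖ D := by
      rw [hX1, low_add, hZ, low_kron, low_kron]
    have c2 : low Z t X2 = low {0} t A ⊗ₖ C - low {0} t B ⊗ₖ D := by
      rw [hX2, low_sub, hZ, low_kron, low_kron]
    have h' := mul_le_mul_of_nonneg_left h (show (0 : ℝ) ≤ 2 * p / t by positivity)
    rw [c1, c2, hZ, sum_low_diag, sum_low_diag]
    calc _ ≤ _ := h'
      _ = _ := by ring
  have hmono := setIntegral_mono_on hi2 ((f1.add f2).div_const 2) measurableSet_Ioo key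
  rw [← hsum, integral_div] at hmono
  have hadd := integral_add f1 f2
  rw [g1, g2] at hadd
  simp only [Pi.add_apply] at hmono
  rw [hadd] at hmono
  unfold TT Hs
  linarith

theorem tt_nonneg {p : ℝ} (h3 : 3 < p) (h4 : p < 4) {A B : Matrix ι ι ℂ} {C D : Matrix κ κ ℂ}
    (hV : Strict A B) (hW : Strict C D) : 0 ≤ TT p A B C D :=
  tt_nonneg_of (fun _ _ _ _ h a b c d => step h3 h4 h hW a b c d) hV hW

/-- the inequality for all strict pairs, `3 < p < 4` -/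
theorem strict34 (p : ℝ) (h3 : 3 < p) (h4 : p < 4) : Pool.Agent.Lib_helper98.GC34.Strict p := by
  intro ι κ _ _ _ _ A D C E h1 h2 h3' h4'
  exact strict_of_tt h3 h4 ⟨h2, h1⟩ ⟨h4', h3'⟩ (tt_nonneg h3 h4 ⟨h2, h1⟩ ⟨h4', h3'⟩)

end Pool.Agent.GC34
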